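import Pool.Agent.H42.Half3

open Pool.Agent.H42.HalfDefs

theorem Pool.Agent.Results.MP_ea0635_lc.Counter.result :
    ∃ (P : Type) (_ : PartialOrder P) (X : Type) (Q : PName P X),
      ¬ AddsHC P ∧ ForcesNoHC Q ∧ AddsHC (Iter Q) := by
  let I : PartialOrder Pool.Agent.H42.Half3.Lav :=
    { (inferInstance : Preorder Pool.Agent.H42.Half3.Lav) with
      le_antisymm := by
        intro p q h h'
        have h1 : p.N = q.N := Set.Subset.antisymm h h'
        have h2 : p.s = q.s :=
          (p.suf _ (h' q.stem)).eq_of_length_le (q.suf _ (h p.stem)).length_le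
        cases p; cases q
        simp only at h1 h2
        subst h1 h2
        rfl }
  exact ⟨Pool.Agent.H42.Half3.Lav, I, _, Pool.Agent.H42.Half1.SQ Pool.Agent.H42.Half3.lav,
    Pool.Agent.H42.Half3.noHC, Pool.Agent.H42.Half2.noHC _,
    Pool.Agent.H42.Half1.adds _ Pool.Agent.H42.Half3.dom⟩
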